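import Mathlib

/-!
# MP_86b878_co: not every finite set containing 1 is the infinity-delta set of a numerical semigroup

For every numerical semigroup `S` with nonempty infinity-delta set there is `c ≥ 3` such that both `c - 1` and `c` belong
to the infinity-delta set of `S`. In particular `{1}`, `{1, 2}`, `{1, d}` and every set `D` without two consecutive
elements `c - 1, c` with `c ≥ 3` is not an infinity-delta set, and the answer to Q1 is negative.

Proof. Let `a` be the smallest generator, and let `c` be the least `m ≥ 1` such that `m a` has a factorization without `a`.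
Then `c ≥ 3`. For `n ≥ c` the element `n a` has the trivial factorization, of maximum norm `n`, and all the others
have smaller norm. Let `n - δ n` be the largest norm of a nontrivial factorization. Then `δ c ≤ c - 1`, `δ n ≤ c`
for all `n ≥ c`, `δ (n + 1) ≤ δ n + 1`, and `δ n = c` for `n = c (a + 1)`, so `δ` takes the values `c - 1` and `c`.
-/

set_option autoImplicit false

namespace Pool.Agent.Results.MP_86b878_co.DeltaInfinity

/-- a numerical semigroup: a submonoid of `ℕ` with finite complement -/
def IsNumSgp (S : AddSubmonoid ℕ) : Prop := {n : ℕ | n ∉ S}.Finite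

/-- the minimal generators: the nonzero elements that are not a sum of two nonzero elements -/
def minGens (S : AddSubmonoid ℕ) : Set ℕ :=
  {a | a ∈ S ∧ a ≠ 0 ∧ ∀ b ∈ S, ∀ c ∈ S, a = b + c → b = 0 ∨ c = 0}

/-- the factorizations of `x`: `z a` is the multiplicity of the minimal generator `a` -/
def Fac (S : AddSubmonoid ℕ) (x : ℕ) : Set (ℕ →₀ ℕ) :=
  {z | (∀ a ∈ z.support, a ∈ minGens S) ∧ z.sum (fun a m => m * a) = x}

/-- `ℓ_0`: the size of the support -/
def ellZero (z : ℕ →₀ ℕ) : ℕ := z.support.card

/-- `ℓ_∞`: the largest multiplicity -/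
def ellInf (z : ℕ →₀ ℕ) : ℕ := z.support.sup z

/-- the differences of consecutive elements of a set of natural numbers -/
def gaps (A : Set ℕ) : Set ℕ :=
  {d | ∃ u ∈ A, ∃ v ∈ A, u < v ∧ (∀ w ∈ A, ¬ (u < w ∧ w < v)) ∧ d = v - u}

/-- the delta set of `S` with respect to the length function `ell` -/
def Delta (ell : (ℕ →₀ ℕ) → ℕ) (S : AddSubmonoid ℕ) : Set ℕ :=
  {d | ∃ x ∈ S, d ∈ gaps (ell '' Fac S x)}

variable {S : AddSubmonoid ℕ}

theorem le_ellInf (z : ℕ →₀ ℕ) (g : ℕ) : z g ≤ ellInf z := by
  unfold ellInf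
  by_cases h : g ∈ z.support
  · exact Finset.le_sup (f := z) h
  · rw [Finsupp.notMem_support_iff.1 h]
    exact Nat.zero_le _

theorem term_le {x : ℕ} {z : ℕ →₀ ℕ} (hz : z ∈ Fac S x) (g : ℕ) : z g * g ≤ x := by
  rw [← hz.2]
  by_cases h : g ∈ z.support
  · exact Finset.single_le_sum (f := fun a => z a * a) (fun a _ => Nat.zero_le _) h
  · rw [Finsupp.notMem_support_iff.1 h]
    simp

theorem fac_mem {x : ℕ} {z : ℕ →₀ ℕ} (hz : z ∈ Fac S x) : x ∈ S := by
  rw [← hz.2]
  unfold Finsupp.sum
  apply AddSubmonoid.sum_mem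
  intro a ha
  have := (hz.1 a ha).1
  simpa using S.nsmul_mem this (z a)

theorem fac_add {x y : ℕ} {z w : ℕ →₀ ℕ} (hz : z ∈ Fac S x) (hw : w ∈ Fac S y) : z + w ∈ Fac S (x + y) := by
  constructor
  · intro a ha
    have h := Finsupp.support_add ha
    rcases Finset.mem_union.1 h with h | h
    · exact hz.1 a h
    · exact hw.1 a h
  · rw [Finsupp.sum_add_index' (by intro a; simp) (by intro a b c; ring), hz.2, hw.2]

theorem fac_single {a : ℕ} (ha : a ∈ minGens S) (n : ℕ) : Finsupp.single a n ∈ Fac S (n * a) := by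
  constructor
  · intro g hg
    have := Finsupp.support_single_subset hg
    rw [Finset.mem_singleton] at this
    rw [this]
    exact ha
  · rw [Finsupp.sum_single_index (by simp)]

theorem fac_erase {x : ℕ} {z : ℕ →₀ ℕ} (hz : z ∈ Fac S x) (a : ℕ) : z.erase a ∈ Fac S (x - z a * a) := by
  constructor
  · intro g hg
    rw [Finsupp.support_erase] at hg
    exact hz.1 g (Finset.mem_of_mem_erase hg)
  · have h : Finsupp.single a (z a) + z.erase a = z := Finsupp.single_add_erase a z
    have h2 : z.sum (fun a m => m * a) = z a * a + (z.erase a).sum (fun a m => m * a) := by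
      conv_lhs => rw [← h]
      rw [Finsupp.sum_add_index' (by intro a; simp) (by intro a b c; ring), Finsupp.sum_single_index (by simp)]
    have := hz.2
    omega

theorem fac_zero {z : ℕ →₀ ℕ} (hz : z ∈ Fac S 0) : z = 0 := by
  ext g
  by_contra hne
  have h := term_le hz g
  have h1 : z g ≠ 0 := hne
  have h2 : g ≠ 0 := (hz.1 g (Finsupp.mem_support_iff.2 h1)).2.1
  have h3 : 0 < z g * g := Nat.mul_pos (Nat.pos_of_ne_zero h1) (Nat.pos_of_ne_zero h2)
  omega

/-- the multiples of the smallest generator -/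
theorem main (hS : IsNumSgp S) (hT : S ≠ ⊤) : ∃ c, 3 ≤ c ∧ c - 1 ∈ Delta ellInf S ∧ c ∈ Delta ellInf S := by
  classical
  -- the smallest nonzero element
  obtain ⟨N, hN⟩ := hS.bddAbove
  have hbig : ∀ n, N < n → n ∈ S := by
    intro n hn
    by_contra h
    exact absurd (hN h) (by omega)
  have hex : ∃ a, a ∈ S ∧ a ≠ 0 := ⟨N + 1, hbig _ (by omega), by omega⟩
  obtain ⟨haS, ha0⟩ := Nat.find_spec hex
  have hmin : ∀ b ∈ S, b ≠ 0 → Nat.find hex ≤ b := fun b hb hb0 => Nat.find_min' hex ⟨hb, hb0⟩
  generalize Nat.find hex = a at haS ha0 hmin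
  have ha1 : a ≠ 1 := by
    rintro rfl
    apply hT
    rw [eq_top_iff]
    intro n _
    simpa using S.nsmul_mem haS n
  have ha2 : 2 ≤ a := by omega
  have haG : a ∈ minGens S := by
    refine ⟨haS, ha0, fun b hb c hc hbc => ?_⟩
    by_contra h
    push Not at h
    have := hmin b hb h.1
    have h2 := Nat.pos_of_ne_zero h.2
    omega
  have hgt : ∀ g ∈ minGens S, g ≠ a → a + 1 ≤ g := by
    intro g hg hga
    have := hmin g hg.1 hg.2.1
    omega
  -- an element not divisible by a
  have hex2 : ∃ b, b ∈ S ∧ ¬ a ∣ b := by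
    refine ⟨a * (N + 1) + 1, hbig _ ?_, ?_⟩
    · nlinarith
    · intro h
      have : a ∣ 1 := (Nat.dvd_add_right (dvd_mul_right a (N + 1))).1 h
      have := Nat.le_of_dvd one_pos this
      omega
  obtain ⟨hbS, hbd⟩ := Nat.find_spec hex2
  have hbmin : ∀ u ∈ S, ¬ a ∣ u → Nat.find hex2 ≤ u := fun u hu hd => Nat.find_min' hex2 ⟨hu, hd⟩
  generalize Nat.find hex2 = b at hbS hbd hbmin
  have hb0 : b ≠ 0 := by
    rintro rfl
    exact hbd (dvd_zero a)
  have hbG : b ∈ minGens S := by
    refine ⟨hbS, hb0, fun u hu v hv huv => ?_⟩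
    by_contra h
    push Not at h
    have h1 : a ∣ u := by
      by_contra hd
      have := hbmin u hu hd
      have := Nat.pos_of_ne_zero h.2
      omega
    have h2 : a ∣ v := by
      by_contra hd
      have := hbmin v hv hd
      have := Nat.pos_of_ne_zero h.1
      omega
    exact hbd (huv ▸ dvd_add h1 h2)
  have hba : b ≠ a := by
    rintro rfl
    exact hbd dvd_rfl
  -- the number c
  have hexc : ∃ m, m ≠ 0 ∧ ∃ z ∈ Fac S (m * a), z a = 0 := by
    refine ⟨b, hb0, Finsupp.single b a, ?_, ?_⟩
    · rw [mul_comm]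
      exact fac_single hbG a
    · rw [Finsupp.single_apply, if_neg hba]
  obtain ⟨hc0, ζ, hζ, hζa⟩ := Nat.find_spec hexc
  have hcmin : ∀ m, m ≠ 0 → (∃ z ∈ Fac S (m * a), z a = 0) → Nat.find hexc ≤ m :=
    fun m hm h => Nat.find_min' hexc ⟨hm, h⟩
  generalize Nat.find hexc = c at hc0 hζ hcmin
  have hζ0 : ζ ≠ 0 := by
    rintro rfl
    have h := hζ.2
    rw [Finsupp.sum_zero_index] at h
    rcases Nat.mul_eq_zero.1 h.symm with h | h
    · exact hc0 h
    · exact ha0 h
  obtain ⟨g, hg⟩ := Finsupp.support_nonempty_iff.2 hζ0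
  have hgG := hζ.1 g hg
  have hgne : g ≠ a := by
    rintro rfl
    exact (Finsupp.mem_support_iff.1 hg) hζa
  have hga := hgt g hgG hgne
  have hg1 : 1 ≤ ζ g := Nat.one_le_iff_ne_zero.2 (Finsupp.mem_support_iff.1 hg)
  have hgle : g ≤ c * a := by
    have := term_le hζ g
    nlinarith
  have hc3 : 3 ≤ c := by
    by_contra hlt
    have hc : c = 1 ∨ c = 2 := by omega
    rcases hc with rfl | rfl
    · omega
    · -- 2 a = g + rest
      have h1 : ζ - Finsupp.single g 1 ∈ Fac S (2 * a - g) := by
        have hle : Finsupp.single g 1 ≤ ζ := by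
          rw [Finsupp.single_le_iff]
          exact hg1
        have hadd : (ζ - Finsupp.single g 1) + Finsupp.single g 1 = ζ := tsub_add_cancel_of_le hle
        constructor
        · intro u hu
          apply hζ.1 u
          rw [Finsupp.mem_support_iff] at hu ⊢
          intro h0
          apply hu
          rw [Finsupp.tsub_apply, h0]
          simp
        · have h2 : ζ.sum (fun a m => m * a) = (ζ - Finsupp.single g 1).sum (fun a m => m * a) + g := by
            conv_lhs => rw [← hadd]
            rw [Finsupp.sum_add_index' (by intro a; simp) (by intro a b c; ring),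
              Finsupp.sum_single_index (by simp)]
            simp
          have := hζ.2
          omega
      have h2 := fac_mem h1
      have h3 : 2 * a - g ≠ 0 := by
        intro h
        have h4 : g = a + a := by omega
        rcases hgG.2.2 a haS a haS h4 with h | h <;> exact ha0 h
      have := hmin _ h2 h3
      omega
  -- nontrivial factorizations of n a
  have htri : ∀ n, ∀ z ∈ Fac S (n * a), z ≠ Finsupp.single a n → z a + c ≤ n ∧ ∀ u, u ≠ a → z u * (a + 1) ≤ n * a := by
    intro n z hz hne
    have h1 := term_le hz a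
    have h2 : z a ≤ n := Nat.le_of_mul_le_mul_right h1 (by omega)
    have h3 := fac_erase hz a
    rw [← Nat.sub_mul] at h3
    refine ⟨?_, ?_⟩
    · by_contra hlt
      by_cases h0 : n - z a = 0
      · rw [h0, zero_mul] at h3
        have h4 := fac_zero h3
        apply hne
        have h5 : Finsupp.single a (z a) + z.erase a = z := Finsupp.single_add_erase a z
        rw [h4, add_zero] at h5
        rw [← h5]
        congr 1
        omega
      · have h4 := hcmin (n - z a) h0 ⟨z.erase a, h3, Finsupp.erase_same⟩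
        omega
    · intro u hu
      by_cases h0 : z u = 0
      · rw [h0]
        simp
      · have h4 := hgt u (hz.1 u (Finsupp.mem_support_iff.2 h0)) hu
        exact (Nat.mul_le_mul_left _ h4).trans (term_le hz u)
  have hltn : ∀ n, n ≠ 0 → ∀ z ∈ Fac S (n * a), z ≠ Finsupp.single a n → ellInf z < n := by
    intro n hn z hz hne
    obtain ⟨h1, h2⟩ := htri n z hz hne
    unfold ellInf
    rw [Finset.sup_lt_iff (by simpa using Nat.pos_of_ne_zero hn)]
    intro u _
    by_cases hu : u = a
    · rw [hu]
      omega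
    · have h3 := h2 u hu
      by_contra h4
      push Not at h4
      have h5 : n * (a + 1) ≤ z u * (a + 1) := Nat.mul_le_mul_right _ h4
      have h6 : n * (a + 1) = n * a + n := by ring
      omega
  have htrin : ∀ n, ellInf (Finsupp.single a n) = n := by
    intro n
    unfold ellInf
    by_cases hn : n = 0
    · rw [hn]
      simp
    · rw [Finsupp.support_single_ne_zero a hn, Finset.sup_singleton]
      simp
  -- the predicate: the gap below the top is at most k
  let B : ℕ → ℕ → Prop := fun n k => ∃ z ∈ Fac S (n * a), z ≠ Finsupp.single a n ∧ n ≤ ellInf z + k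
  have hgap : ∀ n k, n ≠ 0 → 1 ≤ k → B n k → ¬ B n (k - 1) → k ∈ Delta ellInf S := by
    intro n k hn hk hB hnB
    obtain ⟨z, hz, hne, hle⟩ := hB
    have hlt := hltn n hn z hz hne
    have h1 : ¬ n ≤ ellInf z + (k - 1) := fun h => hnB ⟨z, hz, hne, h⟩
    refine ⟨n * a, fac_mem hz, ellInf z, ⟨z, hz, rfl⟩, n, ⟨Finsupp.single a n, fac_single haG n, htrin n⟩, hlt, ?_, by omega⟩
    rintro w ⟨y, hy, rfl⟩ ⟨hw1, hw2⟩
    by_cases hyt : y = Finsupp.single a n
    · rw [hyt, htrin] at hw2
      omega
    · exact hnB ⟨y, hy, hyt, by omega⟩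
  have hstep : ∀ n k, B n k → B (n + 1) (k + 1) := by
    rintro n k ⟨z, hz, hne, hle⟩
    refine ⟨z + Finsupp.single a 1, ?_, ?_, ?_⟩
    · have := fac_add hz (fac_single haG 1)
      have e : n * a + 1 * a = (n + 1) * a := by ring
      rwa [e] at this
    · intro h
      apply hne
      rw [Finsupp.single_add] at h
      exact add_right_cancel h
    · have : ellInf z ≤ ellInf (z + Finsupp.single a 1) := by
        unfold ellInf
        rw [Finset.sup_le_iff]
        intro u _
        have h1 := le_ellInf (z + Finsupp.single a 1) u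
        rw [Finsupp.add_apply] at h1
        unfold ellInf at h1
        omega
      omega
  have hBc : ∀ n, c ≤ n → B n c := by
    intro n hn
    refine ⟨ζ + Finsupp.single a (n - c), ?_, ?_, ?_⟩
    · have := fac_add hζ (fac_single haG (n - c))
      rwa [← Nat.add_mul, Nat.add_sub_cancel' hn] at this
    · intro h
      have h1 := DFunLike.congr_fun h g
      rw [Finsupp.add_apply, Finsupp.single_apply, Finsupp.single_apply, if_neg hgne.symm, if_neg hgne.symm] at h1
      omega
    · have h1 := le_ellInf (ζ + Finsupp.single a (n - c)) a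
      rw [Finsupp.add_apply, Finsupp.single_apply, if_pos rfl] at h1
      omega
  have hBc1 : B c (c - 1) := by
    refine ⟨ζ, hζ, ?_, ?_⟩
    · intro h
      rw [h, Finsupp.single_apply, if_pos rfl] at hζa
      exact hc0 hζa
    · have := le_ellInf ζ g
      omega
  have hBn : ¬ B (c * (a + 1)) (c - 1) := by
    rintro ⟨z, hz, hne, hle⟩
    obtain ⟨h1, h2⟩ := htri _ z hz hne
    have h3 : ellInf z ≤ c * a := by
      unfold ellInf
      rw [Finset.sup_le_iff]
      intro u _
      by_cases hu : u = a
      · rw [hu]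
        have : c * (a + 1) = c * a + c := by ring
        omega
      · have h3 := h2 u hu
        have h4 : c * (a + 1) * a = (c * a) * (a + 1) := by ring
        rw [h4] at h3
        exact Nat.le_of_mul_le_mul_right h3 (by omega)
    have : c * (a + 1) = c * a + c := by ring
    omega
  -- discrete intermediate values
  have hexn : ∃ n, c ≤ n ∧ ¬ B n (c - 1) := ⟨c * (a + 1), by nlinarith, hBn⟩
  obtain ⟨hn1, hn2⟩ := Nat.find_spec hexn
  have hnm : ∀ m, m < Nat.find hexn → ¬ (c ≤ m ∧ ¬ B m (c - 1)) := fun m hm => Nat.find_min hexn hm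
  generalize Nat.find hexn = n at hn1 hn2 hnm
  have hnc : c < n := by
    rcases Nat.lt_or_ge c n with h | h
    · exact h
    · exfalso
      have : n = c := le_antisymm h hn1
      rw [this] at hn2
      exact hn2 hBc1
  have hB1 : B (n - 1) (c - 1) := by
    by_contra h
    exact hnm (n - 1) (by omega) ⟨by omega, h⟩
  have hB2 : ¬ B (n - 1) (c - 1 - 1) := by
    intro h
    have h1 := hstep _ _ h
    have e1 : n - 1 + 1 = n := by omega
    have e2 : c - 1 - 1 + 1 = c - 1 := by omega
    rw [e1, e2] at h1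
    exact hn2 h1
  exact ⟨c, hc3, hgap (n - 1) (c - 1) (by omega) (by omega) hB1 hB2,
    hgap n c (by omega) (by omega) (hBc n hn1) hn2⟩

/-- the infinity-delta set of `ℕ` is empty -/
theorem top_empty : Delta ellInf ⊤ = ∅ := by
  rw [Set.eq_empty_iff_forall_notMem]
  rintro d ⟨x, _, u, ⟨z, hz, rfl⟩, v, ⟨w, hw, rfl⟩, huv, _⟩
  have hone : ∀ a ∈ minGens (⊤ : AddSubmonoid ℕ), a = 1 := by
    intro a ha
    by_contra h
    have h0 := ha.2.1
    rcases ha.2.2 1 trivial (a - 1) trivial (by omega) with h1 | h1 <;> omega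
  have hu : ∀ y ∈ Fac ⊤ x, y = Finsupp.single 1 x := by
    intro y hy
    have h1 : ∀ g, g ≠ 1 → y g = 0 := by
      intro g hg
      by_contra h
      exact hg (hone g (hy.1 g (Finsupp.mem_support_iff.2 h)))
    have h2 : y = Finsupp.single 1 (y 1) := by
      ext g
      rw [Finsupp.single_apply]
      split_ifs with h
      · rw [h]
      · exact h1 g (fun h' => h h'.symm)
    have h3 := hy.2
    rw [h2, Finsupp.sum_single_index (by simp), mul_one] at h3
    rw [h2, h3]
  rw [hu z hz, hu w hw] at huv
  exact lt_irrefl _ huv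

/-- **Q1 of MP_86b878_co is false**: for every numerical semigroup `S` with nonempty infinity-delta set there is `c ≥ 3` with
`c - 1` and `c` in this set; so it is not true that every finite set `D` of positive integers with `1 ∈ D` is both the
zero-delta set of a numerical semigroup and the infinity-delta set of a numerical semigroup. -/
theorem result :
    (∀ S : AddSubmonoid ℕ, IsNumSgp S → (Delta ellInf S).Nonempty →
      ∃ c, 3 ≤ c ∧ c - 1 ∈ Delta ellInf S ∧ c ∈ Delta ellInf S) ∧
    ¬ (∀ D : Finset ℕ, (∀ d ∈ D, 1 ≤ d) → 1 ∈ D → ∃ S S' : AddSubmonoid ℕ, IsNumSgp S ∧ IsNumSgp S' ∧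
      Delta ellZero S = (D : Set ℕ) ∧ Delta ellInf S' = (D : Set ℕ)) := by
  have h1 : ∀ S : AddSubmonoid ℕ, IsNumSgp S → (Delta ellInf S).Nonempty →
      ∃ c, 3 ≤ c ∧ c - 1 ∈ Delta ellInf S ∧ c ∈ Delta ellInf S := by
    intro S hS hne
    apply main hS
    rintro rfl
    rw [top_empty] at hne
    exact Set.not_nonempty_empty hne
  refine ⟨h1, fun h => ?_⟩
  obtain ⟨_, S', _, hS', _, he⟩ := h {1} (by simp) (by simp)
  obtain ⟨c, hc, _, hc2⟩ := h1 S' hS' (by rw [he]; simp)
  rw [he] at hc2
  simp at hc2
  omega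

end Pool.Agent.Results.MP_86b878_co.DeltaInfinity
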